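import Pool.Agent.Q199.CS.Main

/-!
# The discrete Heisenberg group has two different minimal closed right ideals in `βG`

`Ultrafilter G` is the Stone-Čech compactification of the discrete group `G`, with Mathlib's
topology and Mathlib's multiplication `Ultrafilter.mul`
(`A ∈ p * q ↔ {g | {h | g * h ∈ A} ∈ q} ∈ p`).
-/

namespace Pool.Agent.Results.MP_be5e04_al.HeisenbergPartition

open Filter Pool.Agent.Q199.CS

attribute [local instance] Ultrafilter.mul Ultrafilter.semigroup

/-- `A` is `n`-syndetic: there is a finite `F` such that every `S` with at most `n` elements is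
contained in `f A` for some `f ∈ F`. -/
def NSyndetic {G : Type} [Group G] (n : ℕ) (A : Set G) : Prop :=
  ∃ F : Finset G, ∀ S : Finset G, S.card ≤ n → ∃ f ∈ F, (S : Set G) ⊆ (fun a => f * a) '' A

/-- `A` is completely syndetic: `n`-syndetic for every `n ≥ 1`. -/
def CompletelySyndetic {G : Type} [Group G] (A : Set G) : Prop :=
  ∀ n : ℕ, 1 ≤ n → NSyndetic n A

/-- Right ideals of `βG`. -/
def IsRightIdeal {G : Type} [Group G] (R : Set (Ultrafilter G)) : Prop :=
  R.Nonempty ∧ ∀ p ∈ R, ∀ q : Ultrafilter G, p * q ∈ R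

/-- Minimal closed right ideals of `βG`: closed right ideals which contain no strictly smaller
closed right ideal. -/
def IsMinClosedRightIdeal {G : Type} [Group G] (R : Set (Ultrafilter G)) : Prop :=
  IsClosed R ∧ IsRightIdeal R ∧
    ∀ R' : Set (Ultrafilter G), IsClosed R' → IsRightIdeal R' → R' ⊆ R → R' = R

/-- Virtually abelian groups. -/
def VirtuallyAbelian (G : Type) [Group G] : Prop :=
  ∃ H : Subgroup G, H.FiniteIndex ∧ ∀ a ∈ H, ∀ b ∈ H, a * b = b * a

/-! ### Sanity checks on the multiplication of `βG` -/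

lemma mem_mul_iff {G : Type} [Group G] (A : Set G) (p q : Ultrafilter G) :
    A ∈ p * q ↔ {g | {h | g * h ∈ A} ∈ q} ∈ p := Iff.rfl

lemma pure_mul_pure {G : Type} [Group G] (g h : G) :
    (pure g : Ultrafilter G) * pure h = pure (g * h) := by
  apply Ultrafilter.ext
  intro A
  rfl

lemma continuous_mul_right_var {G : Type} [Group G] (q : Ultrafilter G) :
    Continuous (fun p : Ultrafilter G => p * q) := Ultrafilter.continuous_mul_left q

lemma continuous_pure_mul {G : Type} [Group G] (g : G) :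
    Continuous (fun q : Ultrafilter G => (pure g : Ultrafilter G) * q) := by
  rw [ultrafilterBasis_is_basis.continuous_iff]
  rintro _ ⟨A, rfl⟩
  exact ultrafilter_isOpen_basic {h | g * h ∈ A}

/-! ### From completely syndetic sets to minimal closed right ideals -/

lemma tuple_of_nsyndetic {G : Type} [Group G] {n : ℕ} {A : Set G} (h : NSyndetic n A) :
    ∃ F : Finset G, ∀ s : Fin n → G, ∃ f ∈ F, ∀ i, f * s i ∈ A := by
  classical
  obtain ⟨F, hF⟩ := h
  refine ⟨F.image (fun f => f⁻¹), fun s => ?_⟩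
  obtain ⟨f, hf, hS⟩ := hF (Finset.univ.image s)
    (le_trans Finset.card_image_le (by simp))
  refine ⟨f⁻¹, Finset.mem_image_of_mem _ hf, fun i => ?_⟩
  obtain ⟨a, ha, hfa⟩ := hS (by simp : s i ∈ ((Finset.univ.image s : Finset G) : Set G))
  simp only at hfa
  rw [← hfa, inv_mul_cancel_left]
  exact ha

lemma nsyndetic_of_tuple {G : Type} [Group G] {n : ℕ} {A : Set G}
    (h : ∃ F : Finset G, ∀ s : Fin (n + 1) → G, ∃ f ∈ F, ∀ i, f * s i ∈ A) :
    NSyndetic (n + 1) A := by
  classical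
  obtain ⟨F, hF⟩ := h
  refine ⟨F.image (fun f => f⁻¹), fun S hS => ?_⟩
  obtain ⟨s, hs⟩ : ∃ s : Fin (n + 1) → G, (S : Set G) ⊆ Set.range s := by
    rcases S.eq_empty_or_nonempty with h0 | hne
    · subst h0
      exact ⟨fun _ => 1, by simp⟩
    · have : Nonempty S := hne.to_subtype
      obtain ⟨e⟩ : Nonempty (S ↪ Fin (n + 1)) := by
        rw [Function.Embedding.nonempty_iff_card_le]
        simpa using hS
      refine ⟨fun i => (Function.invFun e i : S), ?_⟩
      intro x hx
      exact ⟨e ⟨x, hx⟩, by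
        have := Function.leftInverse_invFun e.injective ⟨x, hx⟩
        simp only [this]⟩
  obtain ⟨f, hf, hfs⟩ := hF s
  refine ⟨f⁻¹, Finset.mem_image_of_mem _ hf, ?_⟩
  intro x hx
  obtain ⟨i, rfl⟩ := hs hx
  exact ⟨f * s i, hfs i, by simp⟩

lemma exists_common {G : Type} [Group G] {A : Set G} (hA : CompletelySyndetic A) :
    ∃ p : Ultrafilter G, ∀ q : Ultrafilter G, A ∈ p * q := by
  classical
  have hcl : ∀ q : Ultrafilter G, IsClosed {p : Ultrafilter G | A ∈ p * q} := by
    intro q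
    exact (ultrafilter_isClosed_basic A).preimage (Ultrafilter.continuous_mul_left q)
  have hne : (⋂ q : Ultrafilter G, {p : Ultrafilter G | A ∈ p * q}).Nonempty := by
    apply CompactSpace.iInter_nonempty hcl
    intro Q
    rcases Nat.eq_zero_or_pos Q.card with h0 | hpos
    · rw [Finset.card_eq_zero] at h0
      subst h0
      exact ⟨pure 1, by simp⟩
    obtain ⟨F, hF⟩ := tuple_of_nsyndetic (hA Q.card hpos)
    -- enumerate `Q`
    have hF' : ∀ s : Q → G, ∃ f ∈ F, ∀ q : Q, f * s q ∈ A := by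
      intro s
      obtain ⟨f, hf, hfs⟩ := hF (fun i => s (Q.equivFin.symm i))
      refine ⟨f, hf, fun q => ?_⟩
      have := hfs (Q.equivFin q)
      simpa using this
    by_contra hcon
    have hcon' : ∀ f : G, ∃ q : Q, {g | f * g ∉ A} ∈ (q : Ultrafilter G) := by
      intro f
      by_contra hf
      push Not at hf
      apply hcon
      refine ⟨pure f, ?_⟩
      simp only [Set.mem_iInter]
      intro q hq
      have := hf ⟨q, hq⟩
      have h2 : {g | f * g ∉ A}ᶜ ∈ q := Ultrafilter.compl_mem_iff_notMem.2 this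
      change {g | f * g ∈ A} ∈ q
      filter_upwards [h2] with g hg
      simpa using hg
    choose i hi using hcon'
    have hs : ∀ q : Q, ∃ g : G, ∀ f ∈ F, i f = q → f * g ∉ A := by
      intro q
      have : (⋂ f ∈ F.filter (fun f => i f = q), {g | f * g ∉ A}) ∈ (q : Ultrafilter G) := by
        rw [Ultrafilter.mem_coe.symm, Filter.biInter_finset_mem]
        intro f hf
        rw [Finset.mem_filter] at hf
        rw [← hf.2]
        exact hi f
      obtain ⟨g, hg⟩ := (q : Ultrafilter G).nonempty_of_mem this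
      refine ⟨g, fun f hf hfq => ?_⟩
      simp only [Set.mem_iInter] at hg
      exact hg f (Finset.mem_filter.2 ⟨hf, hfq⟩)
    choose s hs using hs
    obtain ⟨f, hf, hfs⟩ := hF' s
    exact hs (i f) f hf rfl (hfs (i f))
  obtain ⟨p, hp⟩ := hne
  simp only [Set.mem_iInter] at hp
  exact ⟨p, hp⟩

/-- Every completely syndetic set contains a minimal closed right ideal in its closure. -/
lemma exists_min {G : Type} [Group G] {A : Set G} (hA : CompletelySyndetic A) :
    ∃ R : Set (Ultrafilter G), IsMinClosedRightIdeal R ∧ ∀ p ∈ R, A ∈ p := by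
  classical
  set R0 : Set (Ultrafilter G) := {p | ∀ q : Ultrafilter G, A ∈ p * q} with hR0
  have hR0c : IsClosed R0 := by
    have : R0 = ⋂ q : Ultrafilter G, {p : Ultrafilter G | A ∈ p * q} := by
      ext p; simp [hR0]
    rw [this]
    exact isClosed_iInter fun q =>
      (ultrafilter_isClosed_basic A).preimage (Ultrafilter.continuous_mul_left q)
  have hR0i : IsRightIdeal R0 := by
    refine ⟨exists_common hA, ?_⟩
    intro p hp q q'
    rw [mul_assoc]
    exact hp _
  obtain ⟨R, hRsub, hR⟩ := zorn_superset_nonempty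
    {R : Set (Ultrafilter G) | IsClosed R ∧ IsRightIdeal R} (by
      intro c hc hchain hcne
      refine ⟨⋂₀ c, ⟨isClosed_sInter fun R hR => (hc hR).1, ?_, ?_⟩, fun R hR => Set.sInter_subset_of_mem hR⟩
      · have : Nonempty c := hcne.to_subtype
        apply IsCompact.nonempty_sInter_of_directed_nonempty_isCompact_isClosed
        · intro a ha b hb
          rcases eq_or_ne a b with h | h
          · subst h; exact ⟨a, ha, subset_rfl, subset_rfl⟩
          · rcases hchain ha hb h with h' | h'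
            · exact ⟨a, ha, subset_rfl, h'⟩
            · exact ⟨b, hb, h', subset_rfl⟩
        · intro R hR; exact (hc hR).2.1
        · intro R hR; exact (hc hR).1.isCompact
        · intro R hR; exact (hc hR).1
      · intro p hp q R hR
        exact (hc hR).2.2 p (hp R hR) q) R0 ⟨hR0c, hR0i⟩
  refine ⟨R, ⟨hR.prop.1, hR.prop.2, ?_⟩, ?_⟩
  · intro R' h1 h2 h3
    exact Set.Subset.antisymm h3 (hR.le_of_le ⟨h1, h2⟩ h3)
  · intro p hp
    have h := hRsub hp (pure 1)
    rw [mem_mul_iff] at h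
    filter_upwards [h] with g hg
    simpa using hg

/-! ### The Heisenberg group -/

lemma heis_nilpotent : Group.IsNilpotent (Heis ℤ) := by
  let f : Heis ℤ →* Multiplicative (ℤ × ℤ) :=
    { toFun := fun g => Multiplicative.ofAdd (g.a, g.b)
      map_one' := rfl
      map_mul' := fun g h => rfl }
  apply Subgroup.isNilpotent_of_ker_le_center f
  · intro g hg
    rw [MonoidHom.mem_ker] at hg
    have h : (g.a, g.b) = (0, 0) := hg
    have ha : g.a = 0 := congrArg Prod.fst h
    have hb : g.b = 0 := congrArg Prod.snd h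
    rw [Subgroup.mem_center_iff]
    intro k
    ext <;> simp [ha, hb, add_comm]

lemma pow_x (n : ℕ) : (⟨1, 0, 0⟩ : Heis ℤ) ^ n = ⟨n, 0, 0⟩ := by
  induction n with
  | zero => ext <;> simp
  | succ n ih => rw [pow_succ, ih]; ext <;> simp

lemma pow_y (n : ℕ) : (⟨0, 1, 0⟩ : Heis ℤ) ^ n = ⟨0, n, 0⟩ := by
  induction n with
  | zero => ext <;> simp
  | succ n ih => rw [pow_succ, ih]; ext <;> simp

lemma heis_not_va : ¬ VirtuallyAbelian (Heis ℤ) := by
  rintro ⟨H, hH, hcomm⟩
  obtain ⟨n, hn, -, hxn⟩ := Subgroup.exists_pow_mem_of_index_ne_zero hH.index_ne_zero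
    (⟨1, 0, 0⟩ : Heis ℤ)
  obtain ⟨m, hm, -, hym⟩ := Subgroup.exists_pow_mem_of_index_ne_zero hH.index_ne_zero
    (⟨0, 1, 0⟩ : Heis ℤ)
  have h := congrArg Heis.c (hcomm _ hxn _ hym)
  rw [pow_x, pow_y] at h
  simp at h
  omega

lemma heis_fg : Group.FG (Heis ℤ) := by
  classical
  rw [Group.fg_iff]
  refine ⟨{⟨1, 0, 0⟩, ⟨0, 1, 0⟩}, ?_, by simp⟩
  rw [eq_top_iff]
  intro g _
  set S : Subgroup (Heis ℤ) := Subgroup.closure {⟨1, 0, 0⟩, ⟨0, 1, 0⟩} with hS
  have hx : (⟨1, 0, 0⟩ : Heis ℤ) ∈ S := Subgroup.subset_closure (by simp)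
  have hy : (⟨0, 1, 0⟩ : Heis ℤ) ∈ S := Subgroup.subset_closure (by simp)
  have hz : (⟨0, 0, 1⟩ : Heis ℤ) ∈ S := by
    have : (⟨0, 0, 1⟩ : Heis ℤ) = ⟨1, 0, 0⟩ * ⟨0, 1, 0⟩ * (⟨1, 0, 0⟩)⁻¹ * (⟨0, 1, 0⟩)⁻¹ := by
      ext <;> simp
    rw [this]
    exact S.mul_mem (S.mul_mem (S.mul_mem hx hy) (S.inv_mem hx)) (S.inv_mem hy)
  let fx : Multiplicative ℤ →* Heis ℤ :=
    { toFun := fun n => ⟨n.toAdd, 0, 0⟩, map_one' := rfl, map_mul' := by intro a b; ext <;> simp }
  let fy : Multiplicative ℤ →* Heis ℤ :=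
    { toFun := fun n => ⟨0, n.toAdd, 0⟩, map_one' := rfl, map_mul' := by intro a b; ext <;> simp }
  let fz : Multiplicative ℤ →* Heis ℤ :=
    { toFun := fun n => ⟨0, 0, n.toAdd⟩, map_one' := rfl, map_mul' := by intro a b; ext <;> simp }
  have gen : ∀ (f : Multiplicative ℤ →* Heis ℤ), f (Multiplicative.ofAdd 1) ∈ S →
      ∀ n : ℤ, f (Multiplicative.ofAdd n) ∈ S := by
    intro f hf n
    have : Multiplicative.ofAdd n = (Multiplicative.ofAdd (1 : ℤ)) ^ n := by
      rw [← ofAdd_zsmul]; simp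
    rw [this, map_zpow]
    exact S.zpow_mem hf n
  have hg : g = fy (Multiplicative.ofAdd g.b) * fx (Multiplicative.ofAdd g.a) *
      fz (Multiplicative.ofAdd g.c) := by
    ext <;> simp [fx, fy, fz]
  rw [hg]
  exact S.mul_mem (S.mul_mem (gen fy hy _) (gen fx hx _)) (gen fz hz _)

/-- **The discrete Heisenberg group answers Q1 negatively.**  The integral Heisenberg group is
countable, finitely generated, nilpotent and not virtually abelian; it is partitioned into two
completely syndetic sets, and `βG` has two disjoint minimal closed right ideals.  In particular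
it is false that `βG` has exactly one minimal closed right ideal for every nilpotent group `G`
which is not virtually abelian. -/
theorem result :
    (¬ ∀ (G : Type) [Group G] [Countable G], Group.IsNilpotent G → ¬ VirtuallyAbelian G →
      ∃! R : Set (Ultrafilter G), IsMinClosedRightIdeal R) ∧
    Countable (Heis ℤ) ∧ Group.FG (Heis ℤ) ∧ Group.IsNilpotent (Heis ℤ) ∧
    ¬ VirtuallyAbelian (Heis ℤ) ∧
    (∃ A : Set (Heis ℤ), CompletelySyndetic A ∧ CompletelySyndetic Aᶜ) ∧
    (∃ A : Set (Heis ℤ), CompletelySyndetic A ∧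
      Disjoint A ((fun g => (⟨1, 0, 0⟩ : Heis ℤ) * g) '' A)) ∧
    ∃ R₁ R₂ : Set (Ultrafilter (Heis ℤ)),
      IsMinClosedRightIdeal R₁ ∧ IsMinClosedRightIdeal R₂ ∧ Disjoint R₁ R₂ := by
  obtain ⟨A, hA1, hA2⟩ := exists_set
  have hCS : CompletelySyndetic A := by
    intro n hn
    obtain ⟨m, rfl⟩ : ∃ m, n = m + 1 := ⟨n - 1, by omega⟩
    exact nsyndetic_of_tuple (hA1 m)
  have hCSc : CompletelySyndetic Aᶜ := by
    intro n hn
    obtain ⟨m, rfl⟩ : ∃ m, n = m + 1 := ⟨n - 1, by omega⟩
    apply nsyndetic_of_tuple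
    classical
    obtain ⟨F, hF⟩ := hA1 m
    refine ⟨F.image (fun f => xx * f), fun s => ?_⟩
    obtain ⟨f, hf, hfs⟩ := hF s
    refine ⟨xx * f, Finset.mem_image_of_mem _ hf, fun i => ?_⟩
    rw [mul_assoc]
    exact hA2 _ (hfs i)
  have hR : ∃ R₁ R₂ : Set (Ultrafilter (Heis ℤ)),
      IsMinClosedRightIdeal R₁ ∧ IsMinClosedRightIdeal R₂ ∧ Disjoint R₁ R₂ := by
    obtain ⟨R₁, h1, h1'⟩ := exists_min hCS
    obtain ⟨R₂, h2, h2'⟩ := exists_min hCSc
    refine ⟨R₁, R₂, h1, h2, ?_⟩
    rw [Set.disjoint_left]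
    intro p hp1 hp2
    exact (Ultrafilter.compl_mem_iff_notMem.1 (h2' p hp2)) (h1' p hp1)
  refine ⟨?_, inferInstance, heis_fg, heis_nilpotent, heis_not_va, ⟨A, hCS, hCSc⟩,
    ⟨A, hCS, ?_⟩, hR⟩
  · intro hall
    obtain ⟨R, -, huniq⟩ := hall (Heis ℤ) heis_nilpotent heis_not_va
    obtain ⟨R₁, R₂, h1, h2, hdis⟩ := hR
    have e1 := huniq R₁ h1
    have e2 := huniq R₂ h2
    obtain ⟨p, hp⟩ := h1.2.1.1
    exact Set.disjoint_left.1 hdis hp (by rw [e2, ← e1]; exact hp)
  · rw [Set.disjoint_left]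
    rintro _ hg ⟨a, ha, rfl⟩
    exact hA2 a ha hg

end Pool.Agent.Results.MP_be5e04_al.HeisenbergPartition
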